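import Pool.Agent.W2helper66.XP.Stm

/-!
# Project XP (helper66), piece LOC: the local recolouring lemma
-/

set_option autoImplicit false

namespace Pool.Agent.W2helper56.XP

open Pool.Agent.W2helper66.XP

lemma inv_path (hI : INV) {n : ℕ} (hn : Odd n) (h3 : 3 ≤ n) (E : ZMod n → ZMod n → Prop)
    (β : ℕ → ZMod n) (hinj : ∀ i j, i < n → j < n → β i = β j → i = j)
    (hE : ∀ i, i + 1 < n → E (β i) (β (i + 1)) ∨ E (β (i + 1)) (β i)) :
    ∃ g : Fin 2 → ZMod n → ZMod n, (∀ i v, g i (g i v) = v) ∧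
      (∀ v, g 0 v = v ↔ v = β 0) ∧ (∀ v, g 1 v = v ↔ v = β (n - 1)) ∧
      (∀ i v, g i v ≠ v → E v (g i v) ∨ E (g i v) v) ∧ (∀ v, g 0 v ≠ g 1 v) := by
  obtain ⟨g, h1, h2, h3', h4, h5⟩ := hI n hn h3 β hinj
  refine ⟨g, h1, h2, h3', fun i v hv => ?_, h5⟩
  obtain ⟨j, hj, h | h⟩ := h4 i v hv
  · have h6 := hE j hj
    rw [← h.1, ← h.2] at h6
    exact h6
  · have h6 := hE j hj
    rw [← h.1, ← h.2] at h6
    exact h6.symm

lemma val_range (p : ℕ) [Fact p.Prime] (a : ZMod p) (h0 : a ≠ 0) (h1 : a ≠ 1) (h2 : a ≠ -1) :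
    2 ≤ a.val ∧ a.val + 2 ≤ p := by
  have hp : 0 < p := (Fact.out : p.Prime).pos
  have e : ((a.val : ℕ) : ZMod p) = a := ZMod.natCast_zmod_val a
  have hlt := ZMod.val_lt a
  have n0 : a.val ≠ 0 := fun h => h0 (by rw [← e, h, Nat.cast_zero])
  have n1 : a.val ≠ 1 := fun h => h1 (by rw [← e, h, Nat.cast_one])
  have n2 : a.val ≠ p - 1 := by
    intro h
    apply h2
    rw [← e, h, Nat.cast_sub (by omega), ZMod.natCast_self, Nat.cast_one, zero_sub]
  omega

/-- the edges of the second path in the coordinate of the first one -/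
def EB {p : ℕ} (b v w : ZMod p) : Prop := (w = v + b ∧ v ≠ 0 ∧ v ≠ 1) ∨ (v = b ∧ w = b + 1)

lemma disj0 {p : ℕ} {b c v w : ZMod p} (hb0 : b ≠ 0) (hb1 : b ≠ 1)
    (h : EdgeA p b c v w) (h' : EB b v w) : False := by
  rcases h with ⟨h1, h2, h3, h4⟩ | ⟨h1, h2⟩ | ⟨h1, h2⟩ <;>
    rcases h' with ⟨g1, g2, g3⟩ | ⟨g1, g2⟩
  · exact hb1 (by linear_combination h1 - g1)
  · exact h3 g1
  · exact g2 h1
  · exact hb0 (by linear_combination h1 - g1)
  · exact g3 h1
  · exact hb1 (by linear_combination h1 - g1)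

lemma disj1 {p : ℕ} [Fact p.Prime] {b c v w : ZMod p} (two : (2 : ZMod p) ≠ 0) (hb0 : b ≠ 0)
    (hb2 : b ≠ -1) (h : EdgeA p b c v w) (h' : EB b w v) : False := by
  have t2 : (2 : ZMod p) * b ≠ 0 := mul_ne_zero two hb0
  rcases h with ⟨h1, h2, h3, h4⟩ | ⟨h1, h2⟩ | ⟨h1, h2⟩ <;>
    rcases h' with ⟨g1, g2, g3⟩ | ⟨g1, g2⟩
  · exact hb2 (by linear_combination -h1 - g1)
  · exact two (by linear_combination -h1 + g1 - g2)
  · exact t2 (by linear_combination h1 - g1 - h2)
  · exact hb2 (by linear_combination h1 - g2)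
  · exact t2 (by linear_combination h1 - g1 - h2)
  · exact hb0 (by linear_combination h1 - g2)

lemma loc1 (hA : PATHA) (hB : PATHB) (hI : INV) (p : ℕ) [Fact p.Prime] (b c : ZMod p)
    (hb0 : b ≠ 0) (hb1 : b ≠ 1) (hb2 : b ≠ -1) (hc0 : c ≠ 0) (hc1 : c ≠ 1) (hc2 : c ≠ -1)
    (hbc : b ≠ c) : ∃ g : Fin 4 → ZMod p → ZMod p,
      (∀ i v, g i (g i v) = v) ∧
      (∀ v, g 0 v = v ↔ v = 0) ∧ (∀ v, g 1 v = v ↔ v = 1) ∧
      (∀ v, g 2 v = v ↔ v = c) ∧ (∀ v, g 3 v = v ↔ v = c + 1) ∧
      (∀ i v, g i v ≠ v → g i v = v + 1 ∨ g i v = v - 1 ∨ g i v = v + b ∨ g i v = v - b) ∧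
      (∀ v i j, i ≠ j → g i v ≠ g j v) ∧
      (∀ i, g i 0 ≠ 1 ∧ g i 1 ≠ 0 ∧ g i c ≠ c + 1 ∧ g i (c + 1) ≠ c) := by
  classical
  obtain ⟨b2, bp⟩ := val_range p b hb0 hb1 hb2
  obtain ⟨c2, cp⟩ := val_range p c hc0 hc1 hc2
  have hbu : b * b⁻¹ = 1 := mul_inv_cancel₀ hb0
  generalize hu : b⁻¹ = u at hbu
  have hu0 : u ≠ 0 := by
    rintro rfl
    rw [mul_zero] at hbu
    exact zero_ne_one hbu
  have hu1 : u ≠ 1 := fun h => hb1 (by rw [h, mul_one] at hbu; exact hbu)
  have hu2 : u ≠ -1 := fun h => hb2 (by rw [h] at hbu; linear_combination -hbu)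
  obtain ⟨u2, up⟩ := val_range p u hu0 hu1 hu2
  have hprime : p.Prime := Fact.out
  have hodd : Odd p := hprime.odd_of_ne_two (by omega)
  have hp3 : 3 ≤ p := by omega
  have two : (2 : ZMod p) ≠ 0 := by
    intro h
    have h' : ((2 : ℕ) : ZMod p) = 0 := by exact_mod_cast h
    rw [ZMod.natCast_eq_zero_iff] at h'
    have := Nat.le_of_dvd (by norm_num) h'
    omega
  obtain ⟨β, β1, β2, β3, β4⟩ := hA p b.val c.val b2 bp c2 cp
    (fun h => hbc (ZMod.val_injective p h))
  simp only [ZMod.natCast_zmod_val] at β2 β3 β4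
  obtain ⟨γ, γ1, γ2, γ3, γ4⟩ := hB p u.val u2 up
  simp only [ZMod.natCast_zmod_val] at γ3 γ4
  obtain ⟨gA, a1, a2, a3, a4, a5⟩ := inv_path hI hodd hp3 (EdgeA p b c) β β1 β4
  obtain ⟨gB, d1, d2, d3, d4, d5⟩ := inv_path hI hodd hp3 (EdgeB p u) γ γ1 γ4
  rw [β2] at a2
  rw [β3] at a3
  rw [γ2] at d2
  rw [γ3] at d3
  have hub : ∀ z : ZMod p, u * (b * z) = z := fun z => by linear_combination z * hbu
  have hbu' : ∀ z : ZMod p, b * (u * z) = z := fun z => by linear_combination z * hbu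
  have hiff : ∀ w v : ZMod p, b * w = v ↔ w = u * v := by
    intro w v
    constructor
    · rintro rfl
      exact (hub w).symm
    · rintro rfl
      exact hbu' v
  -- the second path in the coordinate of the first one
  let hb : Fin 2 → ZMod p → ZMod p := fun i v => b * gB i (u * v)
  have e1 : ∀ i v, hb i (hb i v) = v := by
    intro i v
    show b * gB i (u * (b * gB i (u * v))) = v
    rw [hub, d1, hbu']
  have e2 : ∀ v, hb 0 v = v ↔ v = 0 := by
    intro v
    show b * gB 0 (u * v) = v ↔ v = 0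
    rw [hiff, d2, mul_eq_zero]
    exact ⟨fun h => h.resolve_left hu0, Or.inr⟩
  have e3 : ∀ v, hb 1 v = v ↔ v = 1 := by
    intro v
    show b * gB 1 (u * v) = v ↔ v = 1
    rw [hiff, d3]
    constructor
    · intro h
      exact mul_left_cancel₀ hu0 (by rw [h, mul_one])
    · rintro rfl
      rw [mul_one]
  have hEB : ∀ v w : ZMod p, EdgeB p u (u * v) (u * w) → EB b v w := by
    rintro v w (⟨h1, h2, h3⟩ | ⟨h1, h2⟩)
    · left
      refine ⟨?_, ?_, ?_⟩
      · linear_combination b * h1 - (w - v) * hbu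
      · rintro rfl
        exact h2 (mul_zero _)
      · rintro rfl
        exact h3 (mul_one _)
    · right
      refine ⟨?_, ?_⟩
      · linear_combination b * h1 - v * hbu
      · linear_combination b * h2 - (w - 1) * hbu
  have e4 : ∀ i v, hb i v ≠ v → EB b v (hb i v) ∨ EB b (hb i v) v := by
    intro i v hv
    have h1 : gB i (u * v) ≠ u * v := fun h => hv ((hiff _ _).2 h)
    have h2 : gB i (u * v) = u * hb i v := (hub _).symm
    have h3 := d4 i (u * v) h1
    rw [h2] at h3
    exact h3.imp (hEB _ _) (hEB _ _)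
  have e5 : ∀ v, hb 0 v ≠ hb 1 v := fun v h => d5 (u * v) (mul_left_cancel₀ hb0 h)
  have disj : ∀ v w : ZMod p, (EdgeA p b c v w ∨ EdgeA p b c w v) → (EB b v w ∨ EB b w v) →
      False := by
    rintro v w (h | h) (h' | h')
    · exact disj0 hb0 hb1 h h'
    · exact disj1 two hb0 hb2 h h'
    · exact disj1 two hb0 hb2 h h'
    · exact disj0 hb0 hb1 h h'
  have kAB : ∀ (i j : Fin 2) (v : ZMod p), hb i v ≠ gA j v := by
    intro i j v h
    by_cases h1 : hb i v = v
    · have h2 : gA j v = v := by rw [← h, h1]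
      have h3 : v = 0 ∨ v = 1 := by
        fin_cases i
        · exact Or.inl ((e2 v).1 h1)
        · exact Or.inr ((e3 v).1 h1)
      have h4 : v = c ∨ v = c + 1 := by
        fin_cases j
        · exact Or.inl ((a2 v).1 h2)
        · exact Or.inr ((a3 v).1 h2)
      rcases h3 with h3 | h3 <;> rcases h4 with h4 | h4
      · exact hc0 (by rw [← h4, h3])
      · exact hc2 (by linear_combination h3 - h4)
      · exact hc1 (by rw [← h4, h3])
      · exact hc0 (by linear_combination h3 - h4)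
    · have h2 : gA j v ≠ v := by rw [← h]; exact h1
      have h3 := e4 i v h1
      have h4 := a4 j v h2
      rw [← h] at h4
      exact disj _ _ h4 h3
  have lastA : ∀ j : Fin 2, gA j 0 ≠ 1 ∧ gA j 1 ≠ 0 ∧ gA j c ≠ c + 1 ∧ gA j (c + 1) ≠ c := by
    intro j
    have kA : ∀ v w : ZMod p, v ≠ w → gA j v = w → EdgeA p b c v w ∨ EdgeA p b c w v := by
      intro v w hvw h
      have := a4 j v (by rw [h]; exact hvw.symm)
      rwa [h] at this
    have q01 : ¬ (EdgeA p b c 0 1 ∨ EdgeA p b c 1 0) := by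
      rintro ((⟨h1, h2, h3, h4⟩ | ⟨h1, h2⟩ | ⟨h1, h2⟩) | (⟨h1, h2, h3, h4⟩ | ⟨h1, h2⟩ | ⟨h1, h2⟩))
      · exact h2 rfl
      · exact hb1 h2.symm
      · exact zero_ne_one h1
      · exact two (by linear_combination -h1)
      · exact one_ne_zero h1
      · exact hb2 (by linear_combination -h2)
    have qc : ¬ (EdgeA p b c c (c + 1) ∨ EdgeA p b c (c + 1) c) := by
      rintro ((⟨h1, h2, h3, h4⟩ | ⟨h1, h2⟩ | ⟨h1, h2⟩) | (⟨h1, h2, h3, h4⟩ | ⟨h1, h2⟩ | ⟨h1, h2⟩))
      · exact h4 rfl
      · exact hc0 h1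
      · exact hc1 h1
      · exact two (by linear_combination -h1)
      · exact hc2 (by linear_combination h1)
      · exact hc0 (by linear_combination h1)
    refine ⟨fun h => q01 (kA _ _ zero_ne_one h), fun h => q01 (kA _ _ one_ne_zero h).symm,
      fun h => qc (kA _ _ ?_ h), fun h => qc (kA _ _ ?_ h).symm⟩
    · intro h; exact one_ne_zero (by linear_combination -h)
    · intro h; exact one_ne_zero (by linear_combination h)
  have lastB : ∀ j : Fin 2, hb j 0 ≠ 1 ∧ hb j 1 ≠ 0 ∧ hb j c ≠ c + 1 ∧ hb j (c + 1) ≠ c := by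
    intro j
    have kA : ∀ v w : ZMod p, v ≠ w → hb j v = w → EB b v w ∨ EB b w v := by
      intro v w hvw h
      have := e4 j v (by rw [h]; exact hvw.symm)
      rwa [h] at this
    have q01 : ¬ (EB b 0 1 ∨ EB b 1 0) := by
      rintro ((⟨h1, h2, h3⟩ | ⟨h1, h2⟩) | (⟨h1, h2, h3⟩ | ⟨h1, h2⟩))
      · exact h2 rfl
      · exact hb0 h1.symm
      · exact h3 rfl
      · exact hb1 h1.symm
    have qc : ¬ (EB b c (c + 1) ∨ EB b (c + 1) c) := by
      rintro ((⟨h1, h2, h3⟩ | ⟨h1, h2⟩) | (⟨h1, h2, h3⟩ | ⟨h1, h2⟩))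
      · exact hb1 (by linear_combination -h1)
      · exact hbc h1.symm
      · exact hb2 (by linear_combination -h1)
      · exact two (by linear_combination h1 - h2)
    refine ⟨fun h => q01 (kA _ _ zero_ne_one h), fun h => q01 (kA _ _ one_ne_zero h).symm,
      fun h => qc (kA _ _ ?_ h), fun h => qc (kA _ _ ?_ h).symm⟩
    · intro h; exact one_ne_zero (by linear_combination -h)
    · intro h; exact one_ne_zero (by linear_combination h)
  have movA : ∀ (i : Fin 2) v, gA i v ≠ v →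
      gA i v = v + 1 ∨ gA i v = v - 1 ∨ gA i v = v + b ∨ gA i v = v - b := by
    intro i v hv
    have h := a4 i v hv
    generalize gA i v = w at h
    rcases h with ((⟨h1, h2, h3, h4⟩ | ⟨h1, h2⟩ | ⟨h1, h2⟩) |
      (⟨h1, h2, h3, h4⟩ | ⟨h1, h2⟩ | ⟨h1, h2⟩))
    · exact Or.inl h1
    · exact Or.inr (Or.inr (Or.inl (by linear_combination h2 - h1)))
    · exact Or.inr (Or.inr (Or.inl (by linear_combination h2 - h1)))
    · exact Or.inr (Or.inl (by linear_combination -h1))
    · exact Or.inr (Or.inr (Or.inr (by linear_combination h1 - h2)))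
    · exact Or.inr (Or.inr (Or.inr (by linear_combination h1 - h2)))
  have movB : ∀ (i : Fin 2) v, hb i v ≠ v →
      hb i v = v + 1 ∨ hb i v = v - 1 ∨ hb i v = v + b ∨ hb i v = v - b := by
    intro i v hv
    have h := e4 i v hv
    generalize hb i v = w at h
    rcases h with ((⟨h1, h2, h3⟩ | ⟨h1, h2⟩) | (⟨h1, h2, h3⟩ | ⟨h1, h2⟩))
    · exact Or.inr (Or.inr (Or.inl h1))
    · exact Or.inl (by linear_combination h2 - h1)
    · exact Or.inr (Or.inr (Or.inr (by linear_combination -h1)))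
    · exact Or.inr (Or.inl (by linear_combination h1 - h2))
  refine ⟨![hb 0, hb 1, gA 0, gA 1], ?_, e2, e3, a2, a3, ?_, ?_, ?_⟩
  · intro i v
    fin_cases i
    · exact e1 0 v
    · exact e1 1 v
    · exact a1 0 v
    · exact a1 1 v
  · intro i v
    fin_cases i
    · exact movB 0 v
    · exact movB 1 v
    · exact movA 0 v
    · exact movA 1 v
  · intro v i j hij
    fin_cases i <;> fin_cases j
    · exact absurd rfl hij
    · exact e5 v
    · exact kAB 0 0 v
    · exact kAB 0 1 v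
    · exact (e5 v).symm
    · exact absurd rfl hij
    · exact kAB 1 0 v
    · exact kAB 1 1 v
    · exact (kAB 0 0 v).symm
    · exact (kAB 1 0 v).symm
    · exact absurd rfl hij
    · exact a5 v
    · exact (kAB 0 1 v).symm
    · exact (kAB 1 1 v).symm
    · exact (a5 v).symm
    · exact absurd rfl hij
  · intro i
    fin_cases i
    · exact lastB 0
    · exact lastB 1
    · exact lastA 0
    · exact lastA 1

theorem loc (hA : PATHA) (hB : PATHB) (hI : INV) : LOC := by
  intro p _ s s' x y hs hs' hss hss' hyx hyxs hxys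
  have hsi : s * s⁻¹ = 1 := mul_inv_cancel₀ hs
  generalize hr : s⁻¹ = r at hsi
  have hr0 : r ≠ 0 := by
    rintro rfl
    rw [mul_zero] at hsi
    exact zero_ne_one hsi
  have hc0 : r * (y - x) ≠ 0 := mul_ne_zero hr0 (sub_ne_zero.2 hyx)
  have hc1 : r * (y - x) ≠ 1 := fun h => hyxs (by linear_combination s * h - (y - x) * hsi)
  have hc2 : r * (y - x) ≠ -1 := fun h => hxys (by linear_combination -s * h + (y - x) * hsi)
  have hcy : x + s * (r * (y - x)) = y := by linear_combination (y - x) * hsi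
  generalize r * (y - x) = c at hc0 hc1 hc2 hcy
  obtain ⟨b, hb, hb0, hb1, hb2, hbc⟩ : ∃ b : ZMod p, (s * b = s' ∨ s * b = -s') ∧ b ≠ 0 ∧ b ≠ 1 ∧
      b ≠ -1 ∧ b ≠ c := by
    have h0 : r * s' ≠ 0 := mul_ne_zero hr0 hs'
    have hsb : s * (r * s') = s' := by linear_combination s' * hsi
    have h1 : r * s' ≠ 1 := fun h => hss (by rw [h] at hsb; linear_combination -hsb)
    have h2 : r * s' ≠ -1 := fun h => hss' (by rw [h] at hsb; linear_combination -hsb)
    by_cases hbc : r * s' = c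
    · refine ⟨-(r * s'), Or.inr (by linear_combination -hsb), neg_ne_zero.2 h0,
        fun h => h2 (by linear_combination -h), fun h => h1 (by linear_combination -h), ?_⟩
      rw [← hbc]
      intro h
      obtain ⟨h3, h4⟩ := val_range p (r * s') h0 h1 h2
      have h5 : (2 : ZMod p) * (r * s') = 0 := by linear_combination -h
      rcases mul_eq_zero.1 h5 with h6 | h6
      · have h' : ((2 : ℕ) : ZMod p) = 0 := by exact_mod_cast h6
        rw [ZMod.natCast_eq_zero_iff] at h'
        have := Nat.le_of_dvd (by norm_num) h'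
        omega
      · exact h0 h6
    · exact ⟨r * s', Or.inl hsb, h0, h1, h2, hbc⟩
  obtain ⟨g, g1, g2, g3, g4, g5, g6, g7, g8⟩ := loc1 hA hB hI p b c hb0 hb1 hb2 hc0 hc1 hc2 hbc
  -- the transported involutions
  let T : ZMod p → ZMod p := fun v => r * (v - x)
  have hT : ∀ z, T (x + s * z) = z := fun z => by
    show r * (x + s * z - x) = z
    linear_combination z * hsi
  have hT' : ∀ v, x + s * T v = v := fun v => by
    show x + s * (r * (v - x)) = v
    linear_combination (v - x) * hsi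
  have hiff : ∀ z v, x + s * z = v ↔ z = T v := by
    intro z v
    constructor
    · rintro rfl
      exact (hT z).symm
    · rintro rfl
      exact hT' v
  have hTx : T x = 0 := by
    show r * (x - x) = 0
    rw [sub_self, mul_zero]
  have hTxs : T (x + s) = 1 := by
    show r * (x + s - x) = 1
    linear_combination hsi
  have hTy : T y = c := by rw [← hcy]; exact hT c
  have hTys : T (y + s) = c + 1 := by
    have : y + s = x + s * (c + 1) := by linear_combination -hcy
    rw [this]; exact hT _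
  have hTinj : ∀ v w, T v = T w ↔ v = w := fun v w =>
    ⟨fun h => by rw [← hT' v, h, hT'], fun h => by rw [h]⟩
  refine ⟨fun i v => x + s * g i (T v), ?_, ?_, ?_, ?_, ?_, ?_, ?_, ?_⟩
  · intro i v
    show x + s * g i (T (x + s * g i (T v))) = v
    rw [hT, g1, hT']
  · intro v
    show x + s * g 0 (T v) = v ↔ v = x
    rw [hiff, g2, ← hTx, hTinj]
  · intro v
    show x + s * g 1 (T v) = v ↔ v = x + s
    rw [hiff, g3, ← hTxs, hTinj]
  · intro v
    show x + s * g 2 (T v) = v ↔ v = y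
    rw [hiff, g4, ← hTy, hTinj]
  · intro v
    show x + s * g 3 (T v) = v ↔ v = y + s
    rw [hiff, g5, ← hTys, hTinj]
  · intro i v hv
    have h1 : g i (T v) ≠ T v := fun h => hv ((hiff _ _).2 h)
    show x + s * g i (T v) = v + s ∨ x + s * g i (T v) = v - s ∨ x + s * g i (T v) = v + s' ∨
      x + s * g i (T v) = v - s'
    rcases g6 i (T v) h1 with h | h | h | h
    · left; rw [h]; linear_combination hT' v
    · right; left; rw [h]; linear_combination hT' v
    · rcases hb with hb | hb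
      · right; right; left; rw [h]; linear_combination hT' v + hb
      · right; right; right; rw [h]; linear_combination hT' v + hb
    · rcases hb with hb | hb
      · right; right; right; rw [h]; linear_combination hT' v - hb
      · right; right; left; rw [h]; linear_combination hT' v - hb
  · intro v i j hij h
    have h' : x + s * g i (T v) = x + s * g j (T v) := h
    exact g7 (T v) i j hij (mul_left_cancel₀ hs (add_left_cancel h'))
  · intro i
    obtain ⟨k1, k2, k3, k4⟩ := g8 i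
    refine ⟨?_, ?_, ?_, ?_⟩
    · show x + s * g i (T x) ≠ x + s
      rw [Ne, hiff, hTx, hTxs]; exact k1
    · show x + s * g i (T (x + s)) ≠ x
      rw [Ne, hiff, hTx, hTxs]; exact k2
    · show x + s * g i (T y) ≠ y + s
      rw [Ne, hiff, hTy, hTys]; exact k3
    · show x + s * g i (T (y + s)) ≠ y
      rw [Ne, hiff, hTy, hTys]; exact k4

end Pool.Agent.W2helper56.XP
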